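import Pool.Agent.helper45.SGC.Spec

/-!
# Row sy:TSC (MP_069684_lc): if 3SAT has circuits of polynomial size then NP/Poly = P/Poly
-/

set_option autoImplicit false

namespace Pool.Agent.SGC

open Finset Pool.Agent.helper38.Neg Pool.Agent.helper55.NT

theorem TSC_tv (t : ℕ) : tv (t ^ 3 * 2 ^ 3) = t := by
  unfold tv
  rw [Nat.findGreatest_eq_iff]
  refine ⟨?_, fun _ => le_rfl, ?_⟩
  · have h1 : t ≤ t ^ 3 := Nat.le_self_pow (by norm_num) t
    omega
  · intro m hm _ hcon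
    have h1 : t ^ 3 < m ^ 3 := Nat.pow_lt_pow_left hm (by norm_num)
    omega

/-- The functions which are available with `n + 2` gates. -/
def TSC_ok {n : ℕ} (f : Fn n) : Prop :=
  (∃ d, f = fun _ => d) ∨ (∃ i, f = fun x => x i) ∨ ∃ i, f = fun x => !(x i)

theorem TSC_rn {n : ℕ} (G : Set (Fn n)) (hG : ∀ g ∈ G, TSC_ok g) : RN ∅ (n + 2) G := by
  classical
  have h1 : RN (∅ : Set (Fn n)) 1 {fun _ => true} :=
    Rel.mono (Rel.const ∅ true) le_rfl le_rfl le_rfl (by omega)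
  have h2 : RN (∅ : Set (Fn n)) 1 {fun _ => false} :=
    Rel.mono (Rel.const ∅ false) le_rfl le_rfl le_rfl (by omega)
  have h3 : ∀ i ∈ (univ : Finset (Fin n)), RN (∅ : Set (Fn n)) 1
      ({fun x => x i} ∪ {fun x => !(x i)}) := by
    intro i _
    have a1 : RN (∅ : Set (Fn n)) 0 {fun x => x i} := Rel.var ∅ i
    have a2 : RN ((∅ : Set (Fn n)) ∪ {fun x => x i}) 1 {fun x => !(x i)} :=
      Rel.not (u := fun x => x i) (Or.inr rfl)
    exact RN.mono (RN.trans a1 a2) le_rfl le_rfl (by omega)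
  have h4 := RN.biUnion (univ : Finset (Fin n)) _ h3
  have h5 := RN.union (RN.union h1 h2) h4
  refine RN.mono h5 le_rfl ?_ ?_
  · intro g hg
    rcases hG g hg with ⟨d, rfl⟩ | ⟨i, rfl⟩ | ⟨i, rfl⟩
    · left
      cases d
      · right; rfl
      · left; rfl
    · right
      simp only [Set.mem_iUnion, exists_prop]
      exact ⟨i, mem_univ i, Or.inl rfl⟩
    · right
      simp only [Set.mem_iUnion, exists_prop]
      exact ⟨i, mem_univ i, Or.inr rfl⟩
  · rw [card_univ, Fintype.card_fin]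
    omega

theorem TSC_u (n N t : ℕ) (h : tv N = t) (φ : Cl t → Fn n) (hφ : ∀ c, TSC_ok (φ c)) :
    ∃ u : Fin N → Fn n, (∀ i, TSC_ok (u i)) ∧ ∀ x, SAT3 N (fun i => u i x) ↔
      ∃ α : Sg t, ∀ c, φ c x = true → ∃ k, α (c.1 k) = c.2 k := by
  classical
  subst h
  refine ⟨fun i => if h : ∃ c : Cl (tv N), pos c = i then φ h.choose else fun _ => false, ?_, ?_⟩
  · intro i
    by_cases h : ∃ c : Cl (tv N), pos c = i
    · simp only [dif_pos h]
      exact hφ _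
    · simp only [dif_neg h]
      exact Or.inl ⟨false, rfl⟩
  · intro x
    unfold SAT3
    refine exists_congr fun α => forall_congr' fun c => ?_
    have h : ∃ c' : Cl (tv N), (pos c' : Fin N) = pos c := ⟨c, rfl⟩
    have h1 : h.choose = c := pos_injective h.choose_spec
    simp only [dif_pos h, h1]

theorem TSC (hTSE : TSE_stmt) (hCMP : CMP_stmt) : TSC_stmt := by
  classical
  rintro ⟨q, hq⟩ A ⟨p, hp⟩
  refine ⟨Polynomial.X + 2 + q.comp ((Polynomial.X + 2 * p) ^ 3 * 2 ^ 3), fun n => ?_⟩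
  obtain ⟨w, s, hw, hs, C, o, hC⟩ := hp n
  obtain ⟨φ, hφ1, hφ2⟩ := hTSE n w s C o
  obtain ⟨s', hs', D, o', hD⟩ := hq ((n + w + s) ^ 3 * 2 ^ 3)
  obtain ⟨u, hu1, hu2⟩ := TSC_u n ((n + w + s) ^ 3 * 2 ^ 3) (n + w + s) (TSC_tv _) φ hφ1
  have h1 : RN ∅ (n + 2) (Set.range u) := TSC_rn _ (by
    rintro g ⟨i, rfl⟩
    exact hu1 i)
  have h2 := hCMP _ n s' D u
  have h3 : RN ∅ (n + 2 + s') {fun x => D.val (fun i => u i x) o'} := by
    refine RN.mono (RN.trans' h1 (RN.mono h2 ?_ le_rfl le_rfl)) le_rfl ?_ le_rfl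
    · exact Set.subset_union_right
    · rintro g rfl
      exact ⟨o', rfl⟩
  obtain ⟨s₁, hs₁, C', o₁, hC'⟩ := RN.toCircuit h3
  refine ⟨s₁, ?_, C', o₁, ?_⟩
  · have e1 : (Polynomial.X + 2 + q.comp ((Polynomial.X + 2 * p) ^ 3 * 2 ^ 3) : Polynomial ℕ).eval n =
        n + 2 + q.eval ((n + 2 * p.eval n) ^ 3 * 2 ^ 3) := by
      simp [Polynomial.eval_comp]
    rw [e1]
    have e2 : (n + w + s) ^ 3 * 2 ^ 3 ≤ (n + 2 * p.eval n) ^ 3 * 2 ^ 3 :=
      Nat.mul_le_mul_right _ (Nat.pow_le_pow_left (by omega) 3)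
    have e3 := eval_mono q e2
    omega
  · intro x
    rw [hC' x, hD, hu2 x, hC x, hφ2 x]

end Pool.Agent.SGC
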